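import Pool.Agent.H94.FG.AllC
import Pool.Agent.H22.NL.IX
import Pool.Agent.H22.NL.SP
import Pool.Agent.H22.NL.NZ
import Pool.Agent.H22.NL.SS
import Pool.Agent.H22.NL.SC
import Pool.Agent.H22.NL.SpFin

/-!
# A near-linear deterministic algorithm for diagonal perturbations of Hermitian tridiagonal
matrices which separate the eigenvalues

There is one deterministic algorithm which, for every Hermitian tridiagonal `n × n` matrix `A` (no
bound on the norm of `A`), given by the list of its nonzero rows, and every `δ > 0`, computes with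
`O(n + nnz(A) (log n + 1) ^ 4)` operations a real diagonal matrix `E` with `‖E‖ ≤ 1` such that all
gaps between eigenvalues of `A + δ E` are at least `δ / (2 ^ 121 n ^ 47)`. If `A` is given by its
three central diagonals, `O(n (log n + 1) ^ 4)` operations suffice (the algorithm does not have to
know which entries are zero). This answers question Q2 in the affirmative.

The model of computation is `H94FG.Alg` (file `Pool/Agent/H94/FG/Model.lean`): one finite program
for all `n`, exact complex numbers, every arithmetic operation, every comparison (with selection of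
one of two numbers) and every use of a root of unity `exp (2 π i / 2 ^ k)` costs `1`. For every
`n` (and every set of nonzero rows, if `A` is given by its nonzero rows) the program is an
arithmetic circuit with selection gates.

## Idea of the proof

The perturbation is `E = (s / δ) diag (1, ..., n)`, `0 ≤ s ≤ δ / n`. For the potential
`φ(x) = ∑_{k ≤ K} 128 ^ k log (x ^ 2 + 256 ^ k)`, `K = O(log n)` (up to a very small quadratic term
it is a convex function with a kink, smoothed at distance `1`) and the eigenvalues `λ_i(s)` of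
`T(s) = A + s diag (1, ..., n)` let `Φ(s) = ∑_{i, j} φ((λ_i(s) - λ_j(s)) / ε)`.

* (Davis' convexity and the crossing parameters of tridiagonal matrices) If two eigenvalues of
  `T(s)` are closer than `h / (16 n ^ 3)`, then the second difference of `Φ` at `s` with step `h` is
  at least `n ^ 2 / 2`: for most nearby parameters all gaps are large, and the sum of the absolute
  values of the differences of the eigenvalues has a kink at `s`.
* (search) In every round one of the seven inner points of a subdivision in eight parts has a second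
  difference, with a quarter of the step, which is smaller by the factor `16`; so after `O(log n)`
  rounds the second difference is too small for a close pair of eigenvalues. The number of rounds
  does not depend on the norm of `A`, since `Φ` is Lipschitz with a constant which does not depend
  on it.
* (exact evaluation) `exp Φ(s)` is, up to a constant factor, the product of the powers `128 ^ k` of
  the numbers `∏_{i ≠ j} ((λ_i - λ_j) ^ 2 + 4 σ ^ 2)`, `σ = 16 ^ k ε / 2`. If
  `det (x + i σ - T) = P(x) + i Q(x)` with real polynomials `P`, `Q`, this number is up to the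
  factor `σ ^ (2 n)` the square of the resultant of `P` and `Q`. These are obtained by a product
  tree of transfer matrices, and the resultant is the product of the squares of the leading
  coefficients of the Euclidean algorithm, which never breaks down because `Q / P` is the
  resolvent of a Hermitian matrix at a cyclic vector. It is computed by divide and conquer
  (half-gcd) with the fast Fourier transform. The comparisons of second differences of `Φ` are
  comparisons of rational expressions in these numbers, so no logarithms are needed.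
* (sparse matrices) The zero rows of `A` are removed (this leaves a tridiagonal matrix), one zero
  row is added at the end and the algorithm is applied with `δ / 2`; the eigenvalues of the zero
  rows of `A` are put next to the eigenvalue of the additional row.
-/

set_option autoImplicit false

noncomputable section
namespace Pool.Agent.Results.MP_26b317_lc.NearLinearGap

open H94FG

/-- `A` is tridiagonal. -/
def IsTridiagonal {n : ℕ} (A : Matrix (Fin n) (Fin n) ℂ) : Prop :=
  ∀ i j : Fin n, (i : ℕ) + 1 < j ∨ (j : ℕ) + 1 < i → A i j = 0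

/-- The entry of `A` with natural number indices (starting from `0`); it is `0` outside. -/
def entry {n : ℕ} (A : Matrix (Fin n) (Fin n) ℂ) (i j : ℕ) : ℂ :=
  if h : i < n ∧ j < n then A ⟨i, h.1⟩ ⟨j, h.2⟩ else 0

/-- The input data of the first algorithm: the list of the entries on the three central diagonals,
row by row: `(A_{j,j}, A_{j,j+1}, A_{j+1,j})` for `j = 0, ..., n - 1`. -/
def encode {n : ℕ} (A : Matrix (Fin n) (Fin n) ℂ) : List (ℂ × ℂ × ℂ) :=
  List.ofFn fun j : Fin n => (entry A j j, entry A j (j + 1), entry A (j + 1) j)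

/-- The input data of the second algorithm (sparse form): the list of the
`(j, A_{j,j}, A_{j,j+1}, A_{j+1,j})` for those `j = 0, ..., n - 1` for which the row `j` of `A` is
not zero, in increasing order. -/
def encodeSparse {n : ℕ} (A : Matrix (Fin n) (Fin n) ℂ) : List (ℕ × ℂ × ℂ × ℂ) :=
  open Classical in ((List.finRange n).filter fun j : Fin n => A j ≠ 0).map
    fun j : Fin n => ((j : ℕ), entry A j j, entry A j (j + 1), entry A (j + 1) j)

/-- The number of nonzero entries. -/
def nnz {n : ℕ} (A : Matrix (Fin n) (Fin n) ℂ) : ℕ :=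
  (Finset.univ.filter fun p : Fin n × Fin n => A p.1 p.2 ≠ 0).card

/-- The real diagonal matrix `E = diag e` has norm at most `1` and all gaps between eigenvalues
(counted with multiplicity) of `A + δ E` are at least `δ / (2 ^ 121 n ^ 47)`; for `δ ≤ 1` they are
at least `(δ / n) ^ 47 / 2 ^ 121`. -/
def Separates {n : ℕ} (A : Matrix (Fin n) (Fin n) ℂ) (δ : ℝ) (e : Fin n → ℝ) : Prop :=
  (∀ i, |e i| ≤ 1) ∧
    ∃ hM : (A + (δ : ℂ) • Matrix.diagonal fun i => (e i : ℂ)).IsHermitian,
      ∀ i j, i ≠ j →
        δ / (2 ^ 121 * n ^ 47) ≤ |hM.eigenvalues i - hM.eigenvalues j| ∧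
        (δ ≤ 1 → 1 / 2 ^ 121 * (δ / n) ^ 47 ≤ |hM.eigenvalues i - hM.eigenvalues j|)

theorem log_bound (n : ℕ) (hn : 2 ≤ n) (δ : ℝ) (hδ : 0 < δ) (h1 : δ ≤ 1) :
    ((Nat.log 2 n + 1 : ℕ) : ℝ) ≤ 4 * Real.log (n / δ) := by
  have hn0 : (0 : ℝ) < n := by positivity
  have h2 : Real.log 2 * Nat.log 2 n ≤ Real.log n := by
    have h3 : ((2 : ℝ) ^ Nat.log 2 n) ≤ n := by
      exact_mod_cast Nat.pow_log_le_self 2 (by omega)
    have h4 := Real.log_le_log (by positivity) h3
    rw [Real.log_pow] at h4
    linarith
  have h3 : Real.log n ≤ Real.log (n / δ) := by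
    apply Real.log_le_log hn0
    rw [le_div_iff₀ hδ]
    nlinarith
  have h4 : (0.5 : ℝ) < Real.log 2 := by have := Real.log_two_gt_d9; linarith
  have h5 : Real.log 2 ≤ Real.log n := Real.log_le_log (by norm_num) (by exact_mod_cast hn)
  have h6 : (0 : ℝ) ≤ Nat.log 2 n := by positivity
  push_cast
  nlinarith

theorem separates {n : ℕ} (hn : 1 ≤ n) (A : Matrix (Fin n) (Fin n) ℂ) (δ : ℝ) (hδ : 0 < δ)
    (e : Fin n → ℝ) (he : ∀ i, |e i| ≤ 1)
    (hM : (A + (δ : ℂ) • Matrix.diagonal fun i => (e i : ℂ)).IsHermitian)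
    (h : ∀ i j, i ≠ j → δ / (2 ^ 121 * (n : ℝ) ^ 47) ≤ |hM.eigenvalues i - hM.eigenvalues j|) :
    Separates A δ e := by
  have hn' : (0 : ℝ) < n := by exact_mod_cast hn
  refine ⟨he, hM, fun i j hij => ⟨h i j hij, fun h1 => le_trans ?_ (h i j hij)⟩⟩
  rw [div_pow, div_mul_div_comm, one_mul]
  gcongr
  exact pow_le_of_le_one hδ.le h1 (by norm_num)

theorem row_zero {n : ℕ} (A : Matrix (Fin n) (Fin n) ℂ) (hA : A.IsHermitian)
    (hA3 : IsTridiagonal A) (j : Fin n) :
    A j ≠ 0 ↔ Pool.Agent.H22.NL.Kept (H94FG.entry A) n j := by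
  have hT := Pool.Agent.H22.NL.SpFin.HT_entry A hA hA3
  have hent : ∀ i k : Fin n, H94FG.entry A i k = A i k := by
    intro i k
    unfold H94FG.entry
    rw [dif_pos ⟨i.2, k.2⟩]
  unfold Pool.Agent.H22.NL.Kept
  rw [show (((j : ℕ) < n → ¬ Pool.Agent.H22.NL.Iso (H94FG.entry A) j) ↔
    ¬ Pool.Agent.H22.NL.Iso (H94FG.entry A) j) from ⟨fun h => h j.2, fun h _ => h⟩]
  rw [not_iff_not]
  constructor
  · intro h
    have h0 : ∀ k : Fin n, A j k = 0 := fun k => by rw [h]; rfl
    refine ⟨by rw [hent, h0], ?_, ?_⟩
    · by_cases hj : (j : ℕ) + 1 < n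
      · rw [show (j : ℕ) + 1 = ((⟨(j : ℕ) + 1, hj⟩ : Fin n) : ℕ) from rfl, hent, h0]
      · unfold H94FG.entry
        rw [dif_neg (by omega)]
    · intro k hk
      have hk' : k < n := by omega
      rw [show k = ((⟨k, hk'⟩ : Fin n) : ℕ) from rfl, hent, ← hA.apply, h0, star_zero]
  · rintro ⟨h1, h2, h3⟩
    funext k
    show A j k = 0
    rcases lt_trichotomy (k : ℕ) j with h | h | h
    · rcases Nat.lt_or_ge ((k : ℕ) + 1) j with h' | h'
      · exact hA3 j k (Or.inr h')
      · have := h3 k (by omega)
        rw [hent] at this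
        rw [← hA.apply, this, star_zero]
    · have : k = j := Fin.ext h
      rw [this, ← hent, h1]
    · rcases Nat.lt_or_ge ((j : ℕ) + 1) k with h' | h'
      · exact hA3 j k (Or.inl h')
      · have hk : (j : ℕ) + 1 = k := by omega
        rw [hk, hent] at h2
        exact h2

theorem encodeSparse_eq {n : ℕ} (A : Matrix (Fin n) (Fin n) ℂ) (hA : A.IsHermitian)
    (hA3 : IsTridiagonal A) : encodeSparse A = Pool.Agent.H22.NL.enS (H94FG.entry A) n := by
  classical
  unfold encodeSparse Pool.Agent.H22.NL.enS
  have h1 : List.range n = (List.finRange n).map fun j : Fin n => (j : ℕ) := by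
    rw [List.map_coe_finRange_eq_range]
  rw [h1, List.filter_map, List.map_map]
  have h2 : (List.finRange n).filter (fun j : Fin n => decide (A j ≠ 0)) =
      (List.finRange n).filter ((fun i => decide (Pool.Agent.H22.NL.Kept (H94FG.entry A) n i)) ∘
        fun j : Fin n => (j : ℕ)) := by
    apply List.filter_congr
    intro j _
    simp only [Function.comp]
    rw [decide_eq_decide]
    exact row_zero A hA hA3 j
  rw [h2]
  rfl

/-- **Near-linear deterministic algorithms.** (1) One program `f` of the model `Alg` (exact complex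
numbers; one operation is `+`, `-`, `*`, `/`, a comparison with selection of one of two numbers, or
the use of a root of unity `exp (2 π i / 2 ^ k)`) computes for every `n ≥ 1`, every Hermitian
tridiagonal `n × n` matrix `A` (without any bound for its norm), given by the list of its nonzero
rows, and every `δ > 0` a real diagonal matrix `E = diag e` of norm at most `1` such that any two
eigenvalues of `A + δ E` have distance at least `δ / (2 ^ 121 n ^ 47)` (at least
`(δ / n) ^ 47 / 2 ^ 121` if `δ ≤ 1`), and it performs at most `C (n + nnz(A) (log₂ n + 1) ^ 4)`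
operations, which is at most `C nnz(A) (log (n / δ)) ^ 4` if `n ≥ 2`, `δ ≤ 1` and `nnz(A) ≥ n`.
(2) One such program does the same for matrices `A` given by the list of all entries on the three
central diagonals, with at most `C n (log₂ n + 1) ^ 4` operations. -/
theorem result :
    (∃ (f : ℕ × ℂ × List (ℕ × ℂ × ℂ × ℂ) → List ℂ)
      (cost : ℕ × ℂ × List (ℕ × ℂ × ℂ × ℂ) → ℕ) (C : ℕ),
      Alg f cost ∧
      ∀ n : ℕ, 1 ≤ n → ∀ A : Matrix (Fin n) (Fin n) ℂ, A.IsHermitian → IsTridiagonal A →
        ∀ δ : ℝ, 0 < δ →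
          cost (n, (δ : ℂ), encodeSparse A) ≤ C * (n + nnz A * (Nat.log 2 n + 1) ^ 4) ∧
          (2 ≤ n → δ ≤ 1 → n ≤ nnz A →
            (cost (n, (δ : ℂ), encodeSparse A) : ℝ) ≤ C * nnz A * Real.log (n / δ) ^ 4) ∧
          ∃ e : Fin n → ℝ, f (n, (δ : ℂ), encodeSparse A) = List.ofFn (fun i => (e i : ℂ)) ∧
            Separates A δ e) ∧
    (∃ (f : ℕ × ℂ × List (ℂ × ℂ × ℂ) → List ℂ) (cost : ℕ × ℂ × List (ℂ × ℂ × ℂ) → ℕ) (C : ℕ),
      Alg f cost ∧
      ∀ n : ℕ, 1 ≤ n → ∀ A : Matrix (Fin n) (Fin n) ℂ, A.IsHermitian → IsTridiagonal A →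
        ∀ δ : ℝ, 0 < δ →
          cost (n, (δ : ℂ), encode A) ≤ C * n * (Nat.log 2 n + 1) ^ 4 ∧
          ∃ e : Fin n → ℝ, f (n, (δ : ℂ), encode A) = List.ofFn (fun i => (e i : ℂ)) ∧
            Separates A δ e) := by
  constructor
  · obtain ⟨f, cost, C, hf, H⟩ := Pool.Agent.H22.NL.SpFin.sparse H94FG.final_all
      Pool.Agent.H22.NL.IX.main Pool.Agent.H22.NL.SP.main Pool.Agent.H22.NL.NZ.main
      Pool.Agent.H22.NL.SS.main Pool.Agent.H22.NL.SC.main
    refine ⟨f, cost, 512 * C, hf, fun n hn A hA hA3 δ hδ => ?_⟩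
    obtain ⟨h1, e, h2, h3, hM, h4⟩ := H n hn A hA hA3 δ hδ
    rw [encodeSparse_eq A hA hA3]
    refine ⟨h1.trans (Nat.mul_le_mul_right _ (by omega)), fun hn2 hδ1 hnn => ?_, e, h2,
      separates hn A δ hδ e h3 hM h4⟩
    have h5 := log_bound n hn2 δ hδ hδ1
    set L := ((Nat.log 2 n + 1 : ℕ) : ℝ) with hL
    have hL1 : (1 : ℝ) ≤ L := by
      rw [hL]
      exact_mod_cast Nat.succ_le_succ (Nat.zero_le _)
    have h6 : (cost (n, (δ : ℂ), Pool.Agent.H22.NL.enS (H94FG.entry A) n) : ℝ) ≤
        C * (n + nnz A * L ^ 4) := by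
      have h6 : ((cost (n, (δ : ℂ), Pool.Agent.H22.NL.enS (H94FG.entry A) n) : ℕ) : ℝ) ≤
        ((C * (n + nnz A * (Nat.log 2 n + 1) ^ 4) : ℕ) : ℝ) := Nat.cast_le.2 h1
      rw [hL]
      push_cast at h6 ⊢
      exact h6
    refine h6.trans ?_
    have h7 : (n : ℝ) ≤ nnz A := by exact_mod_cast hnn
    have h8 : (1 : ℝ) ≤ L ^ 4 := one_le_pow₀ hL1
    have h9 : (0 : ℝ) ≤ nnz A := by positivity
    calc (C : ℝ) * (n + nnz A * L ^ 4)
        ≤ C * (nnz A * L ^ 4 + nnz A * L ^ 4) := by
          gcongr
          nlinarith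
      _ = 2 * C * nnz A * L ^ 4 := by ring
      _ ≤ 2 * C * nnz A * (4 * Real.log (n / δ)) ^ 4 := by gcongr
      _ = ((512 * C : ℕ) : ℝ) * nnz A * Real.log (n / δ) ^ 4 := by push_cast; ring
  · obtain ⟨f, cost, C, hf, H⟩ := H94FG.final_all
    refine ⟨f, cost, C, hf, fun n hn A hA hA3 δ hδ => ?_⟩
    obtain ⟨h1, e, h2, h3, hM, h4⟩ := H n hn A hA hA3 δ hδ
    refine ⟨h1, e, h2, separates hn A δ hδ e h3 hM fun i j hij => le_trans ?_ (h4 i j hij)⟩
    have hn' : (1 : ℝ) ≤ n := by exact_mod_cast hn
    rw [← mul_div_right_comm, one_mul, div_div]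
    apply div_le_div_of_nonneg_left hδ.le (by positivity)
    calc (2 : ℝ) ^ 73 * (n : ℝ) ^ 46 ≤ 2 ^ 121 * (n : ℝ) ^ 47 := by
          apply mul_le_mul _ (pow_le_pow_right₀ hn' (by norm_num)) (by positivity) (by positivity)
          norm_num

end Pool.Agent.Results.MP_26b317_lc.NearLinearGap
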